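import Mathlib

/-!
# One step extension of positive semidefinite Toeplitz matrices of complex numbers
-/

set_option autoImplicit false

namespace Pool.Agent.Q192.PT

open Matrix ComplexOrder Filter Topology

/-- the Toeplitz matrix of size `n` with entries `c (i - j)` -/
def tz (n : ℕ) (c : ℤ → ℂ) : Matrix (Fin n) (Fin n) ℂ := Matrix.of fun i j => c ((i : ℤ) - (j : ℤ))

/-- `c` changed to `z` at `k` and to its conjugate at `-k` -/
def ext (k : ℤ) (c : ℤ → ℂ) (z : ℂ) : ℤ → ℂ := fun l => if l = k then z else if l = -k then star z else c l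

theorem ext_of (k : ℤ) (c : ℤ → ℂ) (z : ℂ) {l : ℤ} (h1 : l ≠ k) (h2 : l ≠ -k) : ext k c z l = c l := by
  simp [ext, h1, h2]

theorem ext_self (k : ℤ) (c : ℤ → ℂ) (z : ℂ) : ext k c z k = z := by simp [ext]

theorem ext_neg {k : ℤ} (hk : 0 < k) (c : ℤ → ℂ) (z : ℂ) : ext k c z (-k) = star z := by
  simp [ext, show -k ≠ k by omega]

theorem tz_sub {n n' : ℕ} (h : n' ≤ n) (c : ℤ → ℂ) :
    (tz n c).submatrix (Fin.castLE h) (Fin.castLE h) = tz n' c := by
  ext i j
  simp [tz]

theorem psd_sub {n n' : ℕ} (h : n' ≤ n) {c : ℤ → ℂ} (hc : (tz n c).PosSemidef) :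
    (tz n' c).PosSemidef := by
  rw [← tz_sub h]
  exact hc.submatrix _

theorem herm {n : ℕ} {c : ℤ → ℂ} (hc : (tz (n + 1) c).PosSemidef) {l : ℤ} (hl : |l| ≤ n) :
    star (c l) = c (-l) := by
  have key : ∀ p : ℕ, p ≤ n → star (c p) = c (-p) := by
    intro p hp
    have h1 := hc.isHermitian.apply (⟨0, by omega⟩ : Fin (n + 1)) (⟨p, by omega⟩ : Fin (n + 1))
    simpa [tz] using h1
  rcases le_total 0 l with h | h
  · obtain ⟨p, rfl⟩ := Int.eq_ofNat_of_zero_le h
    exact key p (by simpa using hl)
  · obtain ⟨p, hp⟩ := Int.eq_ofNat_of_zero_le (show 0 ≤ -l by omega)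
    have h2 : l = -(p : ℤ) := by omega
    subst h2
    rw [neg_neg, ← key p (by simpa using hl), star_star]

/-- the columns used in the Schur complement -/
def col0 (m : ℕ) (c : ℤ → ℂ) : Fin m → ℂ := fun i => c ((i : ℤ) + 1)
/-- the columns used in the Schur complement -/
def col1 (m : ℕ) (c : ℤ → ℂ) : Fin m → ℂ := fun i => c ((i : ℤ) - m)

/-- the central completion -/
noncomputable def zc (m : ℕ) (c : ℤ → ℂ) : ℂ := star (col1 m c) ⬝ᵥ ((tz m c)⁻¹ *ᵥ col0 m c)

theorem schur_diag {m : ℕ} {A : Matrix (Fin m) (Fin m) ℂ} (hA : A.PosDef) (b : Fin m → ℂ) (d : ℂ)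
    (h : (fromBlocks A (Matrix.of fun i (_ : Fin 1) => b i) (Matrix.of fun i (_ : Fin 1) => b i)ᴴ
      (Matrix.of fun (_ _ : Fin 1) => d)).PosSemidef) :
    0 ≤ d - star b ⬝ᵥ (A⁻¹ *ᵥ b) := by
  let _ : Invertible A := hA.isUnit.invertible
  have h1 := (PosDef.fromBlocks₁₁ _ _ hA).mp h
  have h2 := h1.diag_nonneg (i := (0 : Fin 1))
  convert h2 using 1
  simp only [Matrix.sub_apply, of_apply, mul_apply, conjTranspose_apply, dotProduct, mulVec, Pi.star_apply]
  congr 1
  simp only [Finset.sum_mul, Finset.mul_sum]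
  rw [Finset.sum_comm]
  refine Finset.sum_congr rfl fun i _ => Finset.sum_congr rfl fun j _ => ?_
  ring

/-- the index map -/
def em (m : ℕ) : Fin m ⊕ Fin 2 → Fin (m + 2) :=
  Sum.elim (fun i => i.castSucc.succ) (fun p => if p = 0 then 0 else Fin.last (m + 1))

theorem em_bij (m : ℕ) : Function.Bijective (em m) := by
  rw [Fintype.bijective_iff_injective_and_card]
  refine ⟨?_, by simp⟩
  rintro (i | p) (j | q) h
  · simp only [em, Sum.elim_inl] at h
    have := congrArg Fin.val h
    simp at this
    exact congrArg Sum.inl (Fin.ext this)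
  · exfalso
    simp only [em, Sum.elim_inl, Sum.elim_inr] at h
    have := congrArg Fin.val h
    split_ifs at this <;> simp at this
    omega
  · exfalso
    simp only [em, Sum.elim_inl, Sum.elim_inr] at h
    have := congrArg Fin.val h
    split_ifs at this <;> simp at this
    omega
  · simp only [em, Sum.elim_inr] at h
    have := congrArg Fin.val h
    congr 1
    split_ifs at this with h1 h2 h2
    · rw [h1, h2]
    · simp at this
    · simp at this
    · omega

theorem zc_mem {m : ℕ} {c : ℤ → ℂ} (hc : (tz (m + 1) c).PosSemidef) (hd : (tz m c).det ≠ 0) :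
    (tz (m + 2) (ext (m + 1) c (zc m c))).PosSemidef := by
  have hA : (tz m c).PosDef := ((psd_sub (Nat.le_succ m) hc).posDef_iff_det_ne_zero).mpr hd
  let _ : Invertible (tz m c) := hA.isUnit.invertible
  set A := tz m c with hAd
  set z := zc m c with hz
  set B : Matrix (Fin m) (Fin 2) ℂ := Matrix.of fun i p => if p = 0 then col0 m c i else col1 m c i
    with hB
  set D : Matrix (Fin 2) (Fin 2) ℂ := !![c 0, star z; z, c 0] with hD
  have hk : (0 : ℤ) < m + 1 := by positivity
  have e1 : (tz (m + 2) (ext (m + 1) c z)).submatrix (em m) (em m) = fromBlocks A B Bᴴ D := by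
    ext x y
    rcases x with i | p <;> rcases y with j | q
    · have hi := i.2
      have hj := j.2
      simp only [em, tz, submatrix_apply, Sum.elim_inl, of_apply, fromBlocks_apply₁₁, hAd]
      rw [ext_of _ _ _ (by simp; omega) (by simp; omega)]
      congr 1
      simp
    · have hi := i.2
      fin_cases q
      · simp only [em, tz, submatrix_apply, Sum.elim_inl, Sum.elim_inr, of_apply, fromBlocks_apply₁₂, hB,
          col0, Fin.zero_eta, if_true]
        rw [ext_of _ _ _ (by simp; omega) (by simp; omega)]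
        simp
      · simp only [em, tz, submatrix_apply, Sum.elim_inl, Sum.elim_inr, of_apply, fromBlocks_apply₁₂, hB,
          col1, Fin.mk_one, one_ne_zero, if_false]
        rw [ext_of _ _ _ (by simp; omega) (by simp; omega)]
        congr 1
        simp
    · have hj := j.2
      fin_cases p
      · simp only [em, tz, submatrix_apply, Sum.elim_inl, Sum.elim_inr, of_apply, fromBlocks_apply₂₁, hB,
          col0, Fin.zero_eta, if_true, conjTranspose_apply]
        rw [ext_of _ _ _ (by simp; omega) (by simp; omega),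
          herm hc (l := (j : ℤ) + 1) (by rw [abs_of_nonneg (by positivity)]; omega)]
        congr 1
      · simp only [em, tz, submatrix_apply, Sum.elim_inl, Sum.elim_inr, of_apply, fromBlocks_apply₂₁, hB,
          col1, Fin.mk_one, one_ne_zero, if_false, conjTranspose_apply]
        rw [ext_of _ _ _ (by simp; omega) (by simp; omega),
          herm hc (l := (j : ℤ) - m) (by rw [abs_of_nonpos (by omega)]; omega)]
        congr 1
        simp
    · fin_cases p <;> fin_cases q
      · simp [em, tz, hD]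
        rw [ext_of _ _ _ (by omega) (by omega)]
      · simp [em, tz, hD]
        have := ext_neg hk c z
        simpa using this
      · simp [em, tz, hD]
        exact ext_self _ c z
      · simp [em, tz, hD]
        rw [ext_of _ _ _ (by omega) (by omega)]
  have h3 := posSemidef_submatrix_equiv (M := tz (m + 2) (ext (m + 1) c z)) (Equiv.ofBijective _ (em_bij m))
  rw [← h3]
  show ((tz (m + 2) (ext (m + 1) c z)).submatrix (em m) (em m)).PosSemidef
  rw [e1, PosDef.fromBlocks₁₁ _ _ hA]
  set S := D - Bᴴ * A⁻¹ * B with hS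
  have hc0 : star (c 0) = c 0 := by
    have := herm hc (l := 0) (by simp)
    simpa using this
  have hDh : D.IsHermitian := by
    ext i j
    fin_cases i <;> fin_cases j <;> simp [hD, ← starRingEnd_apply] at hc0 ⊢ <;> simpa using hc0
  have hSh : S.IsHermitian := hDh.sub (isHermitian_conjTranspose_mul_mul _ hA.isHermitian.inv)
  have f : ∀ p q : Fin 2, (Bᴴ * A⁻¹ * B) p q = star (fun i => B i p) ⬝ᵥ (A⁻¹ *ᵥ fun i => B i q) := by
    intro p q
    simp only [mul_apply, conjTranspose_apply, dotProduct, mulVec, Pi.star_apply]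
    simp only [Finset.sum_mul, Finset.mul_sum]
    rw [Finset.sum_comm]
    refine Finset.sum_congr rfl fun i _ => Finset.sum_congr rfl fun j _ => ?_
    ring
  have hS10 : S 1 0 = 0 := by
    rw [hS, Matrix.sub_apply, f]
    simp only [hD, hB, hz, zc, of_apply, one_ne_zero, if_false, if_true]
    exact sub_self _
  have hS01 : S 0 1 = 0 := by
    have := hSh.apply 0 1
    rw [hS10, star_zero] at this
    exact this.symm
  have hS00 : 0 ≤ S 0 0 := by
    have h4 : (fromBlocks A (Matrix.of fun i (_ : Fin 1) => col0 m c i)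
        (Matrix.of fun i (_ : Fin 1) => col0 m c i)ᴴ (Matrix.of fun (_ _ : Fin 1) => c 0)) =
        (tz (m + 1) c).submatrix (Sum.elim (fun i => i.succ) fun _ => 0)
          (Sum.elim (fun i => i.succ) fun _ => 0) := by
      ext x y
      rcases x with i | p <;> rcases y with j | q
      · simp [hAd, tz]
      · simp [tz, col0]
      · simp only [fromBlocks_apply₂₁, conjTranspose_apply, of_apply, submatrix_apply, Sum.elim_inr,
          Sum.elim_inl, tz, col0]
        rw [herm hc (l := (j : ℤ) + 1) (by rw [abs_of_nonneg (by positivity)]; have := j.2; omega)]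
        congr 1
      · simp [tz]
    have h5 := schur_diag hA (col0 m c) (c 0) (by rw [h4]; exact hc.submatrix _)
    rw [hS, Matrix.sub_apply, f]
    simpa [hD, hB] using h5
  have hS11 : 0 ≤ S 1 1 := by
    have h4 : (fromBlocks A (Matrix.of fun i (_ : Fin 1) => col1 m c i)
        (Matrix.of fun i (_ : Fin 1) => col1 m c i)ᴴ (Matrix.of fun (_ _ : Fin 1) => c 0)) =
        (tz (m + 1) c).submatrix (Sum.elim (fun i => i.castSucc) fun _ => Fin.last m)
          (Sum.elim (fun i => i.castSucc) fun _ => Fin.last m) := by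
      ext x y
      rcases x with i | p <;> rcases y with j | q
      · simp [hAd, tz]
      · simp [tz, col1]
      · simp only [fromBlocks_apply₂₁, conjTranspose_apply, of_apply, submatrix_apply, Sum.elim_inr,
          Sum.elim_inl, tz, col1]
        have := j.2
        rw [herm hc (l := (j : ℤ) - m) (by rw [abs_of_nonpos (by omega)]; omega)]
        congr 1
        simp
      · simp [tz]
    have h5 := schur_diag hA (col1 m c) (c 0) (by rw [h4]; exact hc.submatrix _)
    rw [hS, Matrix.sub_apply, f]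
    simpa [hD, hB] using h5
  have hdiag : S = diagonal (fun p => S p p) := by
    ext i j
    fin_cases i <;> fin_cases j <;> simp [hS10, hS01]
  rw [hdiag, posSemidef_diagonal_iff]
  intro i
  fin_cases i
  · exact hS00
  · exact hS11

theorem bound {m : ℕ} {c : ℤ → ℂ} {z : ℂ} (h : (tz (m + 2) (ext (m + 1) c z)).PosSemidef) :
    ‖z‖ ≤ ‖c 0‖ := by
  have hk : (0 : ℤ) < m + 1 := by positivity
  have h1 := (h.submatrix ![0, Fin.last (m + 1)]).det_nonneg
  rw [det_fin_two] at h1
  have e00 : ext (m + 1) c z 0 = c 0 := ext_of _ _ _ (by omega) (by omega)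
  have e1 : (tz (m + 2) (ext (m + 1) c z)) 0 0 = c 0 := by simp [tz, e00]
  have e2 : (tz (m + 2) (ext (m + 1) c z)) (Fin.last (m + 1)) (Fin.last (m + 1)) = c 0 := by
    simp [tz, e00]
  have e3 : (tz (m + 2) (ext (m + 1) c z)) 0 (Fin.last (m + 1)) = star z := by
    simp only [tz, of_apply, Fin.val_zero, Fin.val_last]
    have := ext_neg hk c z
    simpa using this
  have e4 : (tz (m + 2) (ext (m + 1) c z)) (Fin.last (m + 1)) 0 = z := by
    simp only [tz, of_apply, Fin.val_zero, Fin.val_last]
    have := ext_self (m + 1) c z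
    simpa using this
  simp only [submatrix_apply, cons_val_zero, cons_val_one, e1, e2, e3, e4] at h1
  have h2 : star z * z = ((‖z‖ ^ 2 : ℝ) : ℂ) := by
    rw [← starRingEnd_apply, mul_comm, Complex.mul_conj, Complex.normSq_eq_norm_sq]
  rw [h2] at h1
  have h3 := (Complex.le_def.mp h1).1
  simp only [Complex.zero_re, Complex.sub_re, Complex.ofReal_re] at h3
  have h4 : (c 0 * c 0).re ≤ ‖c 0‖ ^ 2 := by
    calc (c 0 * c 0).re ≤ ‖c 0 * c 0‖ := Complex.re_le_norm _
      _ = ‖c 0‖ ^ 2 := by rw [norm_mul, sq]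
  exact le_of_sq_le_sq' (by linarith) (norm_nonneg _)
where
  le_of_sq_le_sq' {a b : ℝ} (h : a ^ 2 ≤ b ^ 2) (hb : 0 ≤ b) : a ≤ b := by
    by_contra hc
    push Not at hc
    nlinarith

theorem psd_closed {X : Type*} {l : Filter X} [NeBot l] {n : ℕ} {C : X → Matrix (Fin n) (Fin n) ℂ}
    {M : Matrix (Fin n) (Fin n) ℂ} (h : Tendsto C l (𝓝 M)) (hC : ∀ᶠ x in l, (C x).PosSemidef) :
    M.PosSemidef := by
  refine PosSemidef.of_dotProduct_mulVec_nonneg ?_ fun v => ?_
  · have h1 : Tendsto (fun x => (C x)ᴴ) l (𝓝 Mᴴ) :=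
      (continuous_id.matrix_conjTranspose.tendsto M).comp h
    exact tendsto_nhds_unique (h1.congr' (hC.mono fun x hx => hx.isHermitian)) h
  · have h1 : Tendsto (fun x => star v ⬝ᵥ (C x *ᵥ v)) l (𝓝 (star v ⬝ᵥ (M *ᵥ v))) := by
      have hcont : Continuous fun A : Matrix (Fin n) (Fin n) ℂ => star v ⬝ᵥ (A *ᵥ v) := by
        fun_prop
      exact (hcont.tendsto M).comp h
    exact ge_of_tendsto h1 (hC.mono fun x hx => hx.dotProduct_mulVec_nonneg v)

theorem closed_mem {X : Type*} {l : Filter X} [NeBot l] {m : ℕ} {C : X → ℤ → ℂ} {c : ℤ → ℂ}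
    {Z : X → ℂ} {z : ℂ} (hC : ∀ i : ℤ, Tendsto (fun x => C x i) l (𝓝 (c i))) (hZ : Tendsto Z l (𝓝 z))
    (h : ∀ᶠ x in l, (tz (m + 2) (ext (m + 1) (C x) (Z x))).PosSemidef) :
    (tz (m + 2) (ext (m + 1) c z)).PosSemidef := by
  refine psd_closed (C := fun x => tz (m + 2) (ext (m + 1) (C x) (Z x))) ?_ h
  refine tendsto_pi_nhds.mpr fun i => tendsto_pi_nhds.mpr fun j => ?_
  simp only [tz, of_apply, ext]
  split_ifs
  · exact hZ
  · exact (continuous_star.tendsto z).comp hZ
  · exact hC _

theorem exists_mem {m : ℕ} {c : ℤ → ℂ} (hc : (tz (m + 1) c).PosSemidef) :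
    ∃ z, (tz (m + 2) (ext (m + 1) c z)).PosSemidef := by
  set C : ℕ → ℤ → ℂ := fun k l => if l = 0 then c 0 + ((1 / ((k : ℝ) + 1) : ℝ) : ℂ) else c l with hCd
  have hpd : ∀ k, (tz (m + 1) (C k)).PosDef := by
    intro k
    have e1 : tz (m + 1) (C k) = ((1 / ((k : ℝ) + 1) : ℝ) : ℂ) • (1 : Matrix (Fin (m + 1)) (Fin (m + 1)) ℂ)
        + tz (m + 1) c := by
      ext i j
      by_cases hij : i = j
      · subst hij
        simp [tz, hCd, add_comm]
      · have : (i : ℤ) - j ≠ 0 := by
          intro h
          exact hij (Fin.ext (by omega))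
        simp [tz, hCd, this, hij]
    rw [e1]
    refine PosDef.add_posSemidef ?_ hc
    refine PosDef.smul PosDef.one ?_
    have : (0 : ℝ) < 1 / ((k : ℝ) + 1) := by positivity
    exact_mod_cast this
  have hz : ∀ k, ∃ z, (tz (m + 2) (ext (m + 1) (C k) z)).PosSemidef := by
    intro k
    refine ⟨zc m (C k), zc_mem (hpd k).posSemidef ?_⟩
    have h1 : (tz m (C k)).PosDef := by
      rw [← tz_sub (Nat.le_succ m)]
      exact (hpd k).submatrix (Fin.castLE_injective _)
    exact ((psd_sub (Nat.le_succ m) (hpd k).posSemidef).posDef_iff_det_ne_zero).mp h1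
  choose Z hZ using hz
  have hbd : ∀ k, Z k ∈ Metric.closedBall (0 : ℂ) (‖c 0‖ + 1) := by
    intro k
    rw [mem_closedBall_zero_iff]
    refine (bound (hZ k)).trans ?_
    simp only [hCd, if_true]
    refine (norm_add_le _ _).trans ?_
    have h1 : ‖((1 / ((k : ℝ) + 1) : ℝ) : ℂ)‖ ≤ 1 := by
      rw [Complex.norm_real, Real.norm_of_nonneg (by positivity)]
      rw [div_le_one (by positivity)]
      linarith [(Nat.cast_nonneg k : (0 : ℝ) ≤ k)]
    linarith
  obtain ⟨z, -, φ, hφ, hlim⟩ := (isCompact_closedBall (0 : ℂ) (‖c 0‖ + 1)).tendsto_subseq hbd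
  refine ⟨z, closed_mem (l := atTop) (C := fun k => C (φ k)) (Z := Z ∘ φ) ?_ hlim
    (Eventually.of_forall fun k => hZ (φ k))⟩
  intro i
  simp only [hCd]
  split_ifs with hi
  · subst hi
    have h1 : Tendsto (fun k : ℕ => ((1 / (((φ k : ℕ) : ℝ) + 1) : ℝ) : ℂ)) atTop (𝓝 ((0 : ℝ) : ℂ)) :=
      (Complex.continuous_ofReal.tendsto 0).comp
        (tendsto_one_div_add_atTop_nhds_zero_nat.comp hφ.tendsto_atTop)
    have h2 := (tendsto_const_nhds (x := c 0)).add h1
    simpa using h2
  · exact tendsto_const_nhds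

/-- the vector `v` moved to the left by `p` places -/
def shl (m p : ℕ) (v : Fin m → ℂ) : Fin (m + 2) → ℂ :=
  fun i => if h : (i : ℕ) + p < m then v ⟨(i : ℕ) + p, h⟩ else 0

theorem sum_shl {m p : ℕ} (v : Fin m → ℂ) (hp : ∀ j : Fin m, (j : ℕ) < p → v j = 0) (F : ℤ → ℂ → ℂ)
    (hF : ∀ l, F l 0 = 0) :
    ∑ i : Fin (m + 2), F i (shl m p v i) = ∑ j : Fin m, F ((j : ℤ) - p) (v j) := by
  have h1 : ∑ i : Fin (m + 2), F i (shl m p v i) =
      ∑ i ∈ Finset.univ.filter (fun i : Fin (m + 2) => (i : ℕ) + p < m), F i (shl m p v i) := by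
    rw [Finset.sum_filter]
    refine Finset.sum_congr rfl fun i _ => ?_
    split_ifs with h
    · rfl
    · simp [shl, h, hF]
  have h2 : ∑ j : Fin m, F ((j : ℤ) - p) (v j) =
      ∑ j ∈ Finset.univ.filter (fun j : Fin m => p ≤ (j : ℕ)), F ((j : ℤ) - p) (v j) := by
    rw [Finset.sum_filter]
    refine Finset.sum_congr rfl fun j _ => ?_
    split_ifs with h
    · rfl
    · rw [hp j (by omega), hF]
  rw [h1, h2]
  refine Finset.sum_bij (fun i hi => (⟨(i : ℕ) + p, (Finset.mem_filter.mp hi).2⟩ : Fin m)) ?_ ?_ ?_ ?_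
  · intro i hi
    simp
  · intro i hi j hj hij
    have := congrArg Fin.val hij
    simp only at this
    exact Fin.ext (by omega)
  · intro j hj
    have h3 := j.2
    have h4 := (Finset.mem_filter.mp hj).2
    refine ⟨⟨(j : ℕ) - p, by omega⟩, ?_, ?_⟩
    · simp only [Finset.mem_filter, Finset.mem_univ, true_and]
      omega
    · exact Fin.ext (by simp only; omega)
  · intro i hi
    have h3 := (Finset.mem_filter.mp hi).2
    simp only [shl, h3, dif_pos]
    congr 1
    push_cast
    ring

theorem unique_mem {m : ℕ} {c : ℤ → ℂ} {z z' : ℂ} (hd : (tz m c).det = 0)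
    (h : (tz (m + 2) (ext (m + 1) c z)).PosSemidef) (h' : (tz (m + 2) (ext (m + 1) c z')).PosSemidef) :
    z = z' := by
  obtain ⟨v, hv0, hv⟩ := exists_mulVec_eq_zero_iff.mpr hd
  have hne : ∃ n : ℕ, ∃ h : n < m, v ⟨n, h⟩ ≠ 0 := by
    by_contra hcon
    push Not at hcon
    exact hv0 (funext fun j => hcon j j.2)
  classical
  obtain ⟨hp, hvp⟩ := Nat.find_spec hne
  set p := Nat.find hne with hpd
  have hmin : ∀ j : Fin m, (j : ℕ) < p → v j = 0 := by
    intro j hj
    have := Nat.find_min hne hj
    push Not at this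
    exact this j.2
  have key : ∀ w : ℂ, (tz (m + 2) (ext (m + 1) c w)).PosSemidef →
      w * v ⟨p, hp⟩ + ∑ j : Fin m, (if (j : ℕ) = p then 0 else c ((m : ℤ) + 1 - (j - p)) * v j) = 0 := by
    intro w hw
    have e0 : ∀ i j : Fin m, ext (m + 1) c w ((i : ℤ) - p - ((j : ℤ) - p)) = c ((i : ℤ) - j) := by
      intro i j
      have := i.2
      have := j.2
      rw [ext_of _ _ _ (by omega) (by omega)]
      congr 1
      ring
    have hQ : star (shl m p v) ⬝ᵥ (tz (m + 2) (ext (m + 1) c w) *ᵥ shl m p v) = 0 := by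
      have e1 : star (shl m p v) ⬝ᵥ (tz (m + 2) (ext (m + 1) c w) *ᵥ shl m p v) =
          ∑ i : Fin (m + 2), star (shl m p v i) *
            ∑ j : Fin m, ext (m + 1) c w ((i : ℤ) - ((j : ℤ) - p)) * v j := by
        simp only [dotProduct, mulVec, Pi.star_apply]
        refine Finset.sum_congr rfl fun i _ => ?_
        congr 1
        exact sum_shl v hmin (fun l x => ext (m + 1) c w ((i : ℤ) - l) * x) (by simp)
      rw [e1]
      have e2 := sum_shl v hmin (fun l x => star x * ∑ j : Fin m, ext (m + 1) c w (l - ((j : ℤ) - p)) * v j)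
        (by simp)
      rw [e2]
      have e3 : star v ⬝ᵥ (tz m c *ᵥ v) = 0 := by rw [hv, dotProduct_zero]
      rw [← e3]
      simp only [dotProduct, mulVec, Pi.star_apply, tz, of_apply]
      refine Finset.sum_congr rfl fun i _ => ?_
      congr 1
      exact Finset.sum_congr rfl fun j _ => by rw [e0]
    have hM := (hw.dotProduct_mulVec_zero_iff _).mp hQ
    have h1 := congrFun hM (Fin.last (m + 1))
    simp only [mulVec, dotProduct, Pi.zero_apply, tz, of_apply] at h1
    have e4 := sum_shl v hmin (fun l x => ext (m + 1) c w (((Fin.last (m + 1) : Fin (m + 2)) : ℤ) - l) * x)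
      (by simp)
    rw [e4] at h1
    rw [← Finset.add_sum_erase _ _ (Finset.mem_univ (⟨p, hp⟩ : Fin m))] at h1 ⊢
    simp only [if_true, zero_add]
    rw [← h1]
    congr 1
    · have := ext_self (m + 1) c w
      simp only [Fin.val_last, sub_self, sub_zero]
      push_cast
      rw [this]
    · refine Finset.sum_congr rfl fun j hj => ?_
      have hj1 : (j : ℕ) ≠ p := fun hh => (Finset.mem_erase.mp hj).1 (Fin.ext hh)
      rw [if_neg hj1]
      by_cases hlt : (j : ℕ) < p
      · rw [hmin j hlt]; simp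
      · have := j.2
        simp only [Fin.val_last]
        push_cast
        rw [ext_of _ _ _ (by omega) (by omega)]
  have h1 := key z h
  have h2 := key z' h'
  have h3 : (z - z') * v ⟨p, hp⟩ = 0 := by linear_combination h1 - h2
  rcases mul_eq_zero.mp h3 with h4 | h4
  · exact sub_eq_zero.mp h4
  · exact absurd h4 hvp

/-- **Continuous one step completion.** -/
theorem cont_ext {X : Type*} [TopologicalSpace X] {m : ℕ} (a : ℤ → C(X, ℂ))
    (ha : ∀ x, (tz (m + 1) fun l => a l x).PosSemidef) :
    ∃ f : C(X, ℂ), ∀ x, (tz (m + 2) (ext (m + 1) (fun l => a l x) (f x))).PosSemidef := by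
  classical
  choose G hG using fun x => exists_mem (ha x)
  set F : X → ℂ := fun x => if (tz m fun l => a l x).det ≠ 0 then zc m (fun l => a l x) else G x with hF
  have hFm : ∀ x, (tz (m + 2) (ext (m + 1) (fun l => a l x) (F x))).PosSemidef := by
    intro x
    simp only [hF]
    split_ifs with h
    · exact zc_mem (ha x) h
    · exact hG x
  have htz : Continuous fun x => tz m fun l => a l x := by
    refine continuous_pi fun i => continuous_pi fun j => ?_
    exact (a _).continuous
  have hdet : Continuous fun x => (tz m fun l => a l x).det := htz.matrix_det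
  have hcont : Continuous F := by
    rw [continuous_iff_continuousAt]
    intro x0
    by_cases hd : (tz m fun l => a l x0).det = 0
    · rw [ContinuousAt, tendsto_iff_ultrafilter]
      intro U hU
      have hb : ∀ᶠ x in (U : Filter X), F x ∈ Metric.closedBall (0 : ℂ) (‖a 0 x0‖ + 1) := by
        have h1 : ∀ᶠ x in 𝓝 x0, ‖a 0 x‖ < ‖a 0 x0‖ + 1 :=
          ((a 0).continuous.norm.tendsto x0).eventually (gt_mem_nhds (by linarith))
        filter_upwards [hU h1] with x hx
        rw [mem_closedBall_zero_iff]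
        exact (bound (hFm x)).trans hx.le
      obtain ⟨z, -, hz⟩ := (isCompact_closedBall (0 : ℂ) (‖a 0 x0‖ + 1)).ultrafilter_le_nhds
        (U.map F) (le_principal_iff.mpr hb)
      have hz' : Tendsto F (U : Filter X) (𝓝 z) := hz
      have hzm : (tz (m + 2) (ext (m + 1) (fun l => a l x0) z)).PosSemidef :=
        closed_mem (C := fun x l => a l x) (fun l => ((a l).continuous.tendsto x0).mono_left hU) hz'
          (Eventually.of_forall hFm)
      rw [unique_mem hd (hFm x0) hzm]
      exact hz'
    · have hev : ∀ᶠ x in 𝓝 x0, (tz m fun l => a l x).det ≠ 0 :=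
        (hdet.tendsto x0).eventually (isOpen_ne.mem_nhds hd)
      have hz : ContinuousAt (fun x => zc m (fun l => a l x)) x0 := by
        have e1 : (fun x => zc m (fun l => a l x)) = fun x =>
            ((tz m fun l => a l x).det)⁻¹ * (star (col1 m fun l => a l x) ⬝ᵥ
              ((tz m fun l => a l x).adjugate *ᵥ col0 m fun l => a l x)) := by
          ext x
          rw [zc, inv_def, smul_mulVec, dotProduct_smul, Ring.inverse_eq_inv', smul_eq_mul]
        rw [e1]
        refine ContinuousAt.mul (hdet.continuousAt.inv₀ hd) (Continuous.continuousAt ?_)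
        have c1 : Continuous fun x => col1 m fun l => a l x :=
          continuous_pi fun i => (a _).continuous
        have c0 : Continuous fun x => col0 m fun l => a l x :=
          continuous_pi fun i => (a _).continuous
        have c2 : Continuous fun x => (tz m fun l => a l x).adjugate := htz.matrix_adjugate
        exact Continuous.dotProduct (continuous_star.comp c1) (c2.matrix_mulVec c0)
      refine hz.congr ?_
      filter_upwards [hev] with x hx
      simp only [hF, if_pos hx]
  exact ⟨⟨F, hcont⟩, hFm⟩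

end Pool.Agent.Q192.PT
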